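import Pool.Agent.helper80.SV.Spec

/-!
Project sv (MP_b5a345_ag), statement LOW: the expected dimension is a lower bound.
-/

set_option autoImplicit false
set_option linter.unusedSectionVars false

namespace Pool.Agent.SV

open MvPolynomial Module

theorem LOW_inf {M : Type} [AddCommGroup M] [Module ℂ M] [Module.Finite ℂ M] {I : Type}
    (K : I → Submodule ℂ M) (D : ℕ) (hK : ∀ i, finrank ℂ M ≤ finrank ℂ (K i) + D)
    (s : Finset I) : finrank ℂ M ≤ finrank ℂ ↥(⨅ i ∈ s, K i) + s.card * D := by
  classical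
  induction s using Finset.induction_on with
  | empty =>
    have h : (⨅ i ∈ (∅ : Finset I), K i) = ⊤ := by simp
    rw [h, finrank_top]
    omega
  | insert a s ha ih =>
    rw [Finset.iInf_insert, Finset.card_insert_of_notMem ha]
    have h1 := Submodule.finrank_sup_add_finrank_inf_eq (K a) (⨅ i ∈ s, K i)
    have h2 : finrank ℂ ↥(K a ⊔ ⨅ i ∈ s, K i) ≤ finrank ℂ M := Submodule.finrank_le _
    have h3 := hK a
    have h4 : (s.card + 1) * D = s.card * D + D := by ring
    omega

theorem LOW_card {k : ℕ} (n : Fin k → ℕ) (i : Fin k) :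
    ((Finset.univ : Finset (Var n)).filter (fun v => (Sigma.fst v) = i)).card = n i + 1 := by
  have h : (Finset.univ : Finset (Var n)).filter (fun v => (Sigma.fst v) = i) =
      (Finset.univ : Finset (Fin (n i + 1))).image (fun j => (⟨i, j⟩ : Var n)) := by
    ext ⟨a, b⟩
    simp only [Finset.mem_filter, Finset.mem_univ, true_and, Finset.mem_image]
    constructor
    · rintro rfl
      exact ⟨b, rfl⟩
    · rintro ⟨j, hj⟩
      exact (congrArg Sigma.fst hj).symm
  rw [h, Finset.card_image_of_injective _ sigma_mk_injective, Finset.card_univ, Fintype.card_fin]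

theorem LOW_Dk {k : ℕ} (n d : Fin k → ℕ) (hd : ∀ i, 1 ≤ d i) :
    Dk (Sigma.fst : Var n → Fin k) Finset.univ d = ∑ i, n i + 1 := by
  unfold Dk
  rw [Finset.filter_true_of_mem fun i _ => hd i, add_comm]
  congr 1
  refine Finset.sum_congr rfl fun i _ => ?_
  rw [LOW_card]
  rfl

theorem LOW (hRKU : RKU_stmt) (hEUL : EUL_stmt) (hMHS : MHS_stmt) : LOW_stmt := by
  intro k n d hk hd r p
  have hM := hMHS k n d
  set M := Sec (Sigma.fst : Var n → Fin k) Finset.univ d with hMdef
  set Φ : Fin r → M →ₗ[ℂ] (Var n → ℂ) := fun l =>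
    Phi1 (Sigma.fst : Var n → Fin k) Finset.univ d false (p l) with hΦ
  have hne : ∀ i : Fin k, ∃ v ∈ (Finset.univ : Finset (Var n)), Sigma.fst v = i :=
    fun i => ⟨⟨i, 0⟩, Finset.mem_univ _, rfl⟩
  have hrank : ∀ l, finrank ℂ (LinearMap.range (Φ l)) ≤ ∑ i, n i + 1 := by
    intro l
    have h := (hRKU (Sigma.fst : Var n → Fin k) Finset.univ Finset.univ d (Finset.Subset.refl _)
      hne (p l)).1
    rwa [LOW_Dk n d hd] at h
  have hker : ∀ l, finrank ℂ M ≤ finrank ℂ (LinearMap.ker (Φ l)) + (∑ i, n i + 1) := by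
    intro l
    have h1 := LinearMap.finrank_range_add_finrank_ker (Φ l)
    have h2 := hrank l
    omega
  have hinf := LOW_inf (fun l => LinearMap.ker (Φ l)) _ hker Finset.univ
  rw [Finset.card_univ, Fintype.card_fin] at hinf
  have hle : (⨅ l ∈ (Finset.univ : Finset (Fin r)), LinearMap.ker (Φ l)).map M.subtype ≤
      Sys n d p := by
    rintro _ ⟨f, hf, rfl⟩
    have hf' : ∀ l, Φ l f = 0 := by
      intro l
      have h1 : f ∈ ⨅ l ∈ (Finset.univ : Finset (Fin r)), LinearMap.ker (Φ l) := hf
      simp only [Submodule.mem_iInf, LinearMap.mem_ker] at h1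
      exact h1 l (Finset.mem_univ l)
    have hgrad : ∀ l v, eval (p l) (pderiv v (f : MvPolynomial (Var n) ℂ)) = 0 := by
      intro l v
      have h1 := congrFun (hf' l) v
      have h2 : Φ l f v = gradL Finset.univ (cut Finset.univ (p l)) (f : MvPolynomial (Var n) ℂ) v := by
        simp [hΦ, Phi1]
      rw [h2, gradL_apply, if_pos (Finset.mem_univ v)] at h1
      have h3 : cut Finset.univ (p l) = p l := by
        funext i
        simp [cut]
      rw [h3] at h1
      simpa using h1
    change (f : MvPolynomial (Var n) ℂ) ∈ Sys n d p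
    unfold Sys
    rw [Submodule.mem_inf]
    refine ⟨by rw [hM]; exact f.2, ?_⟩
    rw [Submodule.mem_iInf]
    intro l
    refine ⟨?_, hgrad l⟩
    have h4 := hEUL (Sigma.fst : Var n → Fin k) Finset.univ d f f.2 ⟨0, hk⟩ (p l)
    rw [Finset.sum_eq_zero fun v _ => by rw [hgrad l v, mul_zero]] at h4
    have h5 : ((d ⟨0, hk⟩ : ℕ) : ℂ) ≠ 0 := by
      have := hd ⟨0, hk⟩
      exact_mod_cast (by omega : d ⟨0, hk⟩ ≠ 0)
    exact (mul_eq_zero.1 h4.symm).resolve_left h5
  have hfin : Module.Finite ℂ ↥(Sys n d p) := by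
    have h1 : Sys n d p ≤ M := by
      rw [← hM]
      exact inf_le_left
    exact Module.Finite.of_injective (Submodule.inclusion h1) (Submodule.inclusion_injective h1)
  have h6 := Submodule.finrank_mono hle
  rw [Submodule.finrank_map_subtype_eq] at h6
  rw [hM]
  exact le_trans (Nat.sub_le_iff_le_add.2 hinf) h6

end Pool.Agent.SV
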