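import Pool.Agent.helper65.SV.SpecE

/-!
Project sv (MP_b5a345_ag), part P, statement PST: singular at a standard point.
-/

set_option autoImplicit false
set_option linter.unusedSectionVars false

namespace Pool.Agent.SV

open Module

section
variable {K : Type} [Fintype K] [DecidableEq K] {n : K → ℕ}

theorem PST_prod (c x : Cell n) (s : Finset K) :
    ∏ j ∈ s, ePt c j (x j) = if ∀ j ∈ s, x j = c j then 1 else 0 := by
  unfold ePt
  rw [Finset.prod_ite_zero]
  simp

theorem PST_sum1 (F : Cell n → Polynomial ℂ) (c : Cell n) (t : ℂ) (i : K) (a : ZMod (n i + 1)) :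
    ∑ x : Cell n, (if x i = a then (∏ j ∈ Finset.univ.erase i, ePt c j (x j)) * (F x).eval t else 0) =
      (F (Function.update c i a)).eval t := by
  rw [Finset.sum_eq_single (Function.update c i a)]
  · rw [Function.update_self, if_pos rfl, PST_prod, if_pos, one_mul]
    intro j hj
    rw [Function.update_of_ne (Finset.ne_of_mem_erase hj)]
  · intro x _ hx
    split_ifs with h
    · rw [PST_prod, if_neg, zero_mul]
      intro h2
      apply hx
      funext j
      by_cases hj : j = i
      · subst hj
        rw [Function.update_self, h]
      · rw [Function.update_of_ne hj, h2 j (Finset.mem_erase.2 ⟨hj, Finset.mem_univ j⟩)]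
    · rfl
  · intro h
    exact absurd (Finset.mem_univ _) h

theorem PST_sum2 (g : Cell n → ℂ) (c : Cell n) :
    ∑ x : Cell n, (∏ j, ePt c j (x j)) * g x = g c := by
  rw [Finset.sum_eq_single c]
  · rw [PST_prod, if_pos (fun j _ => rfl), one_mul]
  · intro x _ hx
    rw [PST_prod, if_neg, zero_mul]
    intro h2
    exact hx (funext fun j => h2 j (Finset.mem_univ j))
  · intro h
    exact absurd (Finset.mem_univ _) h

theorem PST_near [Nonempty K] (c x : Cell n) :
    hammingDist c x ≤ 1 ↔ ∃ (i : K) (a : ZMod (n i + 1)), x = Function.update c i a := by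
  unfold hammingDist
  constructor
  · intro h
    rw [Finset.card_le_one] at h
    by_cases h0 : ∃ i, c i ≠ x i
    · obtain ⟨i, hi⟩ := h0
      refine ⟨i, x i, funext fun j => ?_⟩
      by_cases hj : j = i
      · subst hj
        rw [Function.update_self]
      · rw [Function.update_of_ne hj]
        by_contra h1
        exact hj (h j (by simpa using fun h => h1 h.symm) i (by simpa using hi))
    · push Not at h0
      obtain ⟨i⟩ := ‹Nonempty K›
      refine ⟨i, c i, ?_⟩
      rw [Function.update_eq_self]
      exact (funext h0).symm
  · rintro ⟨i, a, rfl⟩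
    rw [Finset.card_le_one]
    intro j hj k hk
    have h1 : ∀ j, j ∈ Finset.univ.filter (fun j => c j ≠ Function.update c i a j) → j = i := by
      intro j hj
      by_contra h
      rw [Finset.mem_filter] at hj
      exact hj.2 (Function.update_of_ne h a c).symm
    rw [h1 j hj, h1 k hk]

end

theorem PST : PST_stmt := by
  intro K _ _ _ n F c t
  unfold SingAt
  refine and_congr ?_ ?_
  · simp only [PST_sum1]
    constructor
    · intro h x hx
      obtain ⟨i, a, rfl⟩ := (PST_near c x).1 hx
      exact h i a
    · intro h i a
      exact h _ ((PST_near c _).2 ⟨i, a, rfl⟩)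
  · rw [PST_sum2 (fun x => (Polynomial.derivative (F x)).eval t) c]

end Pool.Agent.SV
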