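import Pool.Agent.helper96.SV.SpecA

/-!
Project sv (MP_b5a345_ag), part A, statement WDM: dimension of the families.
-/

set_option autoImplicit false
set_option linter.unusedSectionVars false

namespace Pool.Agent.SVA

open Polynomial Module

/-- families of polynomials of degree `< e` -/
noncomputable def WDM_equiv {K : Type} [Fintype K] [DecidableEq K] (m : K → ℕ) (e : ℕ) :
    WW m e ≃ₗ[ℂ] (Bx m → degreeLT ℂ e) where
  toFun F β := ⟨F.1 β, mem_degreeLT.mpr (mem_WW.mp F.2 β)⟩
  map_add' _ _ := rfl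
  map_smul' _ _ := rfl
  invFun G := ⟨fun β => (G β : ℂ[X]), mem_WW.mpr fun β => mem_degreeLT.mp (G β).2⟩
  left_inv _ := rfl
  right_inv _ := rfl

theorem WDM : WDM_stmt := by
  intro K _ _ m e
  rw [LinearEquiv.finrank_eq (WDM_equiv m e)]
  have h1 : Module.Finite ℂ (degreeLT ℂ e) := Module.Finite.equiv (degreeLTEquiv ℂ e).symm
  have h2 : finrank ℂ (degreeLT ℂ e) = e := by
    rw [LinearEquiv.finrank_eq (degreeLTEquiv ℂ e), Module.finrank_pi, Fintype.card_fin]
  rw [Module.finrank_pi_fintype]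
  simp [h2, vv, Fintype.card_pi]

end Pool.Agent.SVA
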